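import Pool.Agent.P.MP_390d44_co.Dc.Tri
import Pool.Agent.P.MP_390d44_co.Upper

/-! The upper bound for the number of planes when few lines are missing. -/

set_option autoImplicit false

namespace Pool.Agent.P.MP_390d44_co.Dc

open Finset Pool.Agent.P.MP_390d44_co Pool.Agent.P.MP_390d44_co.Fb
open scoped Classical

theorem ex_ord (X Z : Finset Sub) : ∃ f : Sub → ℕ, Set.InjOn f X ∧
    ∀ x ∈ Z, x ∈ X → ∀ c, f c < f x → c ∈ Z := by
  obtain ⟨g, g1, g2⟩ : ∃ g : Sub → ℕ, Set.InjOn g X ∧ ∀ x ∈ X, g x < X.card := by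
    refine ⟨fun x => if h : x ∈ X then (X.equivFin ⟨x, h⟩ : ℕ) else 0, fun x hx y hy e => ?_,
      fun x hx => ?_⟩
    · have hx : x ∈ X := hx
      have hy : y ∈ X := hy
      simp only [dif_pos hx, dif_pos hy] at e
      exact congrArg Subtype.val (X.equivFin.injective (Fin.ext e))
    · simp only [dif_pos hx]
      exact Fin.is_lt _
  refine ⟨fun x => g x + if x ∈ Z then 0 else X.card, fun x hx y hy e => g1 hx hy ?_,
    fun x hx hx' c h => ?_⟩
  · have := g2 x hx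
    have := g2 y hy
    beta_reduce at e
    split_ifs at e <;> omega
  · have := g2 x hx'
    by_contra hc
    beta_reduce at h
    rw [if_pos hx, if_neg hc] at h
    omega

theorem up {X : Finset Sub} (hX : IsPts X) {D : ℕ} (hD : (lines X).card + D = X.card.choose 2)
    (hD0 : 0 < D) {s : ℝ} (hs : 1 ≤ s) (hDs : (D : ℝ) ≤ s ^ 4) :
    ∃ a t : Sub → ℝ, (∀ x ∈ X, 0 ≤ a x ∧ 2 * a x ≤ t x ∧ 4 * a x ≤ t x + X.card ∧
      7 * a x ≤ t x + 3 * X.card ∧ a x ≤ X.card) ∧ ∑ x ∈ X, t x ≤ D ∧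
        ((planes X).card : ℝ) ≤ (X.card.choose 3 : ℝ) - X.card * D +
          (∑ x ∈ X, a x ^ 2) / 2 + 2 * D + 18 * D * s ^ 3 := by
  have s0 : 0 < s := by linarith
  obtain ⟨m, hm⟩ : ∃ m : Sub → ℝ, m = fun l => ((pts X l).card : ℝ) := ⟨_, rfl⟩
  obtain ⟨dl, hdl⟩ : ∃ dl : Sub → ℝ, dl = fun l => (m l - 2) * (m l + 1) / 2 := ⟨_, rfl⟩
  obtain ⟨r, hr⟩ : ∃ r : Sub → ℝ, r = fun l => if 3 ≤ (pts X l).card then m l - 1 else 0 :=
    ⟨_, rfl⟩
  have mc : ∀ l ∈ lines X, (m l = 2 ∧ r l = 0) ∨ (3 ≤ m l ∧ r l = m l - 1 ∧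
      0 ≤ (m l - 3) * (m l - 4) ∧ 0 ≤ (m l - 4) * (m l - 5)) := fun l hl => by
    have := two_le_pts hX hl
    simp only [hr, hm]
    split_ifs with e
    · refine Or.inr ⟨by exact_mod_cast e, rfl, ?_⟩
      rcases e.eq_or_lt with e | e
      · rw [← e]; norm_num
      rcases (Nat.succ_le_of_lt e).eq_or_lt with e | e
      · rw [← e]; norm_num
      · have : (5 : ℝ) ≤ (pts X l).card := by exact_mod_cast e
        exact ⟨mul_nonneg (by linarith) (by linarith), mul_nonneg (by linarith) (by linarith)⟩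
    · exact Or.inl ⟨by rw [show (pts X l).card = 2 by omega]; rfl, rfl⟩
  have lin : ∀ l ∈ lines X, 2 ≤ m l ∧ 0 ≤ r l ∧ m l - 2 ≤ r l ∧ m l * r l ≤ 3 * dl l ∧
      2 * (m l - 2) ≤ dl l ∧ 4 * (m l - 2) ≤ dl l + (m l - 1) ∧
        7 * (m l - 2) ≤ dl l + 3 * (m l - 1) := fun l hl => by
    simp only [hdl]
    rcases mc l hl with ⟨e1, e2⟩ | ⟨e1, e2, e3, e4⟩
    · rw [e1, e2]; norm_num
    · rw [e2]
      refine ⟨by linarith, by linarith, by linarith, ?_, ?_, ?_, ?_⟩ <;> nlinarith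
  have dl0 : ∀ l ∈ lines X, 0 ≤ dl l := fun l hl => by
    obtain ⟨a1, -, -, -, a2, -⟩ := lin l hl
    linarith
  have sdl : ∑ l ∈ lines X, dl l = D := by
    have h1 : ∑ l ∈ lines X, (((pts X l).card.choose 2 : ℕ) : ℝ) = (lines X).card + D := by
      exact_mod_cast (pairs_choose hX).trans hD.symm
    have h2 : ∑ l ∈ lines X, dl l = ∑ l ∈ lines X, ((((pts X l).card.choose 2 : ℕ) : ℝ) - 1) :=
      sum_congr rfl fun l _ => by simp only [hdl, hm, Nat.cast_choose_two]; ring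
    rw [h2, sum_sub_distrib, h1]
    simp
  obtain ⟨deg, hdeg⟩ : ∃ deg : Sub → ℝ, deg = fun x => ∑ l ∈ (lines X).filter (x ≤ ·), r l :=
    ⟨_, rfl⟩
  have deg0 : ∀ x, 0 ≤ deg x := fun x => by
    simp only [hdeg]
    exact sum_nonneg fun l hl => (lin l (mem_filter.1 hl).1).2.1
  have sdeg : ∑ x ∈ X, deg x ≤ 3 * D := by
    simp only [hdeg, sum_filter]
    rw [sum_comm, ← sdl, mul_sum]
    refine sum_le_sum fun l hl => Eq.trans_le ?_ (lin l hl).2.2.2.1
    rw [← sum_filter, sum_const, nsmul_eq_mul, hm]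
    rfl
  obtain ⟨Z, hZ⟩ : ∃ Z, Z = X.filter fun x => s ^ 3 ≤ deg x := ⟨_, rfl⟩
  have hK : (Z.card : ℝ) ≤ 3 * s := by
    have h1 : Z.card • s ^ 3 ≤ ∑ x ∈ Z, deg x :=
      card_nsmul_le_sum _ _ _ fun x hx => by
        rw [hZ] at hx
        exact (mem_filter.1 hx).2
    have h2 : ∑ x ∈ Z, deg x ≤ ∑ x ∈ X, deg x :=
      sum_le_sum_of_subset_of_nonneg (hZ ▸ filter_subset _ _) fun x _ _ => deg0 x
    rw [nsmul_eq_mul] at h1
    refine le_of_mul_le_mul_right ?_ (pow_pos s0 3)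
    nlinarith
  have hml : ∀ l ∈ lines X, m l - 1 ≤ 2 * s ^ 2 := fun l hl => by
    have h1 : dl l ≤ D := sdl ▸ single_le_sum dl0 hl
    have h2 : 1 ≤ s ^ 2 := one_le_pow₀ hs
    simp only [hdl] at h1
    by_contra hc
    push Not at hc
    nlinarith [mul_lt_mul'' hc hc (by positivity) (by positivity)]
  obtain ⟨f, hf, hfZ⟩ := ex_ord X Z
  obtain ⟨e, he⟩ : ∃ e : Sub → ℝ, e = fun x => ((X.filter fun y => ¬ Gd X f x y).card : ℝ) :=
    ⟨_, rfl⟩
  have sown : ∑ x ∈ X, ∑ l ∈ own X f x, dl l ≤ D := by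
    rw [← sum_biUnion, ← sdl]
    · exact sum_le_sum_of_subset_of_nonneg (biUnion_subset.2 fun x _ => filter_subset _ _)
        fun l hl _ => dl0 l hl
    · intro x hx y hy e
      refine disjoint_left.2 fun l l1 l2 => e (hf hx hy (le_antisymm ?_ ?_))
      · exact (mem_filter.1 l1).2.2 y hy (mem_filter.1 l2).2.1
      · exact (mem_filter.1 l2).2.2 x hx (mem_filter.1 l1).2.1
  have c1 : ∀ S : Finset Sub, (∀ l ∈ S, l ∈ lines X) → ∀ i ≤ 2,
      ((∑ l ∈ S, ((pts X l).card - i) : ℕ) : ℝ) = ∑ l ∈ S, (m l - i) := fun S hS i hi => by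
    rw [Nat.cast_sum]
    exact sum_congr rfl fun l hl => by
      rw [Nat.cast_sub (hi.trans (two_le_pts hX (hS l hl))), hm]
  refine ⟨fun x => ∑ l ∈ own X f x, (m l - 2), fun x => ∑ l ∈ own X f x, dl l, fun x hx => ?_,
    sown, ?_⟩
  · have ol : ∀ l ∈ own X f x, l ∈ lines X := fun l hl => (mem_filter.1 hl).1
    have h1 := (Nat.cast_le (α := ℝ)).2
      (thru_le hX hx (own X f x) fun l hl => ⟨ol l hl, (mem_filter.1 hl).2.1⟩)
    rw [c1 _ ol 1 one_le_two, Nat.cast_one] at h1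
    have h2 : 4 * ∑ l ∈ own X f x, (m l - 2) ≤
        ∑ l ∈ own X f x, dl l + ∑ l ∈ own X f x, (m l - 1) := by
      rw [mul_sum, ← sum_add_distrib]
      exact sum_le_sum fun l hl => (lin l (ol l hl)).2.2.2.2.2.1
    have h3 : 7 * ∑ l ∈ own X f x, (m l - 2) ≤
        ∑ l ∈ own X f x, dl l + 3 * ∑ l ∈ own X f x, (m l - 1) := by
      rw [mul_sum, mul_sum, ← sum_add_distrib]
      exact sum_le_sum fun l hl => (lin l (ol l hl)).2.2.2.2.2.2
    have h4 : ∑ l ∈ own X f x, (m l - 2) ≤ ∑ l ∈ own X f x, (m l - 1) :=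
      sum_le_sum fun l _ => by linarith
    beta_reduce
    refine ⟨sum_nonneg fun l hl => by linarith [(lin l (ol l hl)).1], ?_, by linarith,
      by linarith, by linarith⟩
    rw [mul_sum]
    exact sum_le_sum fun l hl => (lin l (ol l hl)).2.2.2.2.1
  have per : ∀ x ∈ X, e x ^ 2 ≤ (∑ l ∈ own X f x, (m l - 2)) ^ 2 + 12 * s ^ 3 * deg x +
      2 * e x - 1 := fun x hx => by
    have ol : ∀ l ∈ own X f x, l ∈ lines X := fun l hl => (mem_filter.1 hl).1
    have fl : ∀ l ∈ frn X f x, l ∈ lines X := fun l hl => (mem_filter.1 hl).1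
    obtain ⟨a, ha⟩ : ∃ a, a = ∑ l ∈ own X f x, (m l - 2) := ⟨_, rfl⟩
    obtain ⟨b, hb⟩ : ∃ b, b = ∑ l ∈ frn X f x, (m l - 1) := ⟨_, rfl⟩
    have a0 : 0 ≤ a := ha ▸ sum_nonneg fun l hl => by linarith [(lin l (ol l hl)).1]
    have b0 : 0 ≤ b := hb ▸ sum_nonneg fun l hl => by linarith [(lin l (fl l hl)).1]
    have e1 : e x ≤ 1 + a + b := by
      have h1 := (Nat.cast_le (α := ℝ)).2 (bad_card hX hf hx)
      rw [Nat.cast_add, Nat.cast_add, c1 _ ol 2 le_rfl, c1 _ fl 1 one_le_two] at h1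
      simpa only [he, ha, hb, Nat.cast_one, Nat.cast_ofNat] using h1
    have e2 : 1 ≤ e x := by
      simp only [he]
      have : 0 < (X.filter fun y => ¬ Gd X f x y).card :=
        card_pos.2 ⟨x, mem_filter.2 ⟨hx, fun h => h.1 rfl⟩⟩
      exact_mod_cast this
    have e3 : a + b ≤ deg x := by
      have h1 : a ≤ ∑ l ∈ own X f x, r l := ha ▸ sum_le_sum fun l hl => (lin l (ol l hl)).2.2.1
      have h2 : b = ∑ l ∈ frn X f x, r l := hb ▸ sum_congr rfl fun l hl => by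
        simp only [hr, if_pos (mem_filter.1 hl).2.2.1]
      have h3 : Disjoint (own X f x) (frn X f x) := disjoint_left.2 fun l l1 l2 => by
        obtain ⟨c, c1, c2, c3⟩ := (mem_filter.1 l2).2.2.2
        exact absurd ((mem_filter.1 l1).2.2 c c1 c2) (not_le.2 c3)
      have h4 : ∑ l ∈ own X f x ∪ frn X f x, r l ≤ deg x := by
        simp only [hdeg]
        refine sum_le_sum_of_subset_of_nonneg (union_subset (fun l hl => ?_) fun l hl => ?_)
          fun l hl _ => (lin l (mem_filter.1 hl).1).2.1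
        · exact mem_filter.2 ⟨ol l hl, (mem_filter.1 hl).2.1⟩
        · exact mem_filter.2 ⟨fl l hl, (mem_filter.1 hl).2.1⟩
      rw [sum_union h3] at h4
      linarith
    have e5 : (e x - 1) ^ 2 ≤ (a + b) ^ 2 := pow_le_pow_left₀ (by linarith) (by linarith) 2
    have s3 : 0 < s ^ 3 := pow_pos s0 3
    have e6 : (a + b) ^ 2 ≤ a ^ 2 + 12 * s ^ 3 * deg x := by
      by_cases hz : x ∈ Z
      · have h1 : (frn X f x).card ≤ Z.card := by
          refine (card_le_card (t := Z.image (x ⊔ ·)) fun l hl => ?_).trans card_image_le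
          obtain ⟨l1, l2, -, c, c1, c2, c3⟩ := mem_filter.1 hl
          exact mem_image.2 ⟨c, hfZ x hz hx c c3, line_eq (rk_line l1) (hX x hx) (hX c c1)
            (fun e => c3.ne (e ▸ rfl)) l2 c2⟩
        have h2 : b ≤ (frn X f x).card • (2 * s ^ 2) :=
          hb ▸ sum_le_card_nsmul _ _ _ fun l hl => hml l (fl l hl)
        have h3 : ((frn X f x).card : ℝ) ≤ 3 * s := (Nat.cast_le.2 h1).trans hK
        rw [nsmul_eq_mul] at h2
        have h4 : b ≤ 6 * s ^ 3 :=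
          h2.trans ((mul_le_mul_of_nonneg_right h3 (by positivity)).trans_eq (by ring))
        nlinarith [mul_le_mul h4 (show 2 * a + b ≤ 2 * deg x by linarith) (by linarith)
          (by positivity)]
      · have h1 : deg x ≤ s ^ 3 := le_of_not_ge fun h => hz (hZ ▸ mem_filter.2 ⟨hx, h⟩)
        nlinarith [mul_le_mul (e3.trans h1) e3 (by linarith) s3.le, mul_nonneg s3.le (deg0 x),
          sq_nonneg a]
    rw [← ha]
    nlinarith
  have se : ∑ x ∈ X, e x ^ 2 ≤ ∑ x ∈ X, (∑ l ∈ own X f x, (m l - 2)) ^ 2 + 36 * s ^ 3 * D +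
      2 * ∑ x ∈ X, e x - X.card := by
    refine (sum_le_sum per).trans ?_
    rw [sum_sub_distrib, sum_add_distrib, sum_add_distrib, ← mul_sum, ← mul_sum, sum_const,
      nsmul_eq_mul, mul_one]
    have h2 := mul_le_mul_of_nonneg_left sdeg (show 0 ≤ 12 * s ^ 3 by positivity)
    linarith
  have hl : ((lines X).card : ℝ) + D = X.card * (X.card - 1) / 2 := by
    rw [← Nat.cast_choose_two]; exact_mod_cast hD
  have sB : (X.card : ℝ) + 2 * D ≤ ∑ x ∈ X, e x := by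
    have h1 := gd_pairs (f := f) hX
    rw [card_filter, sum_product] at h1
    simp only [← card_filter] at h1
    have h2 : ∑ x ∈ X, ((X.filter fun y => Gd X f x y).card +
        (X.filter fun y => ¬ Gd X f x y).card) = X.card * X.card := by
      simp only [card_filter_add_card_filter_not, sum_const, smul_eq_mul]
    rw [sum_add_distrib] at h2
    have h3 : X.card * X.card ≤ 2 * (lines X).card +
        ∑ x ∈ X, (X.filter fun y => ¬ Gd X f x y).card := by omega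
    have h4 := (Nat.cast_le (α := ℝ)).2 h3
    push_cast at h4
    simp only [he]
    linarith
  have n2 : (2 : ℝ) ≤ X.card := by
    have : 2 ≤ X.card := by
      by_contra h
      rw [Nat.choose_eq_zero_of_lt (by omega)] at hD
      omega
    exact_mod_cast this
  have t1 := tri X (Gd X f) (fun a b h => h.symm) fun a h => h.1 rfl
  have t2 := (Nat.cast_le (α := ℝ)).2 (gd_planes hX hf)
  have t3 : 6 * (X.card.choose 3 : ℝ) = X.card * (X.card - 1) * (X.card - 2) := by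
    exact_mod_cast c3 X.card
  push_cast at t2
  beta_reduce
  simp only [he] at se sB
  nlinarith [mul_le_mul_of_nonneg_left sB (sub_nonneg.2 n2)]

section num

variable {a t D n : ℝ}

theorem conc (ha : 0 ≤ a) (h1 : 2 * a ≤ t) (h2 : 4 * a ≤ t + n) (h3 : t ≤ D)
    (hn : 0 ≤ n) : a ^ 2 * D ≤ t * min (D / 2) ((D + n) / 4) ^ 2 := by
  have ht : 0 ≤ t := by linarith
  have hD : 0 ≤ D := ht.trans h3
  have a1 : a ^ 2 ≤ (t / 2) ^ 2 := pow_le_pow_left₀ ha (by linarith) 2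
  have a2 : a ^ 2 ≤ ((t + n) / 4) ^ 2 := pow_le_pow_left₀ ha (by linarith) 2
  rcases le_total D n with h | h
  · rw [min_eq_left (by linarith)]
    refine (mul_le_mul_of_nonneg_right a1 hD).trans ?_
    nlinarith [mul_nonneg (mul_nonneg ht hD) (sub_nonneg.2 h3)]
  · rw [min_eq_right (by linarith)]
    rcases le_total t n with h' | h'
    · refine (mul_le_mul_of_nonneg_right a1 hD).trans ?_
      nlinarith [mul_nonneg ht (sq_nonneg (D - n)),
        mul_nonneg (mul_nonneg ht hD) (sub_nonneg.2 h')]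
    · refine (mul_le_mul_of_nonneg_right a2 hD).trans ?_
      have : n * n ≤ t * D := mul_le_mul h' h hn ht
      nlinarith [mul_nonneg (sub_nonneg.2 h3) (sub_nonneg.2 this)]

theorem one_big (ha : 0 ≤ a) (h2 : 4 * a ≤ t + n) (h3 : 7 * a ≤ t + 3 * n) (c1 : n ≤ t)
    (c2 : t ≤ D) (d1 : 5 * n ≤ 3 * D) (d2 : D ≤ 2 * n) :
    a ^ 2 + (D - t) ^ 2 / 4 ≤ ((D + 3 * n) / 7) ^ 2 := by
  have hn : 0 ≤ n := by linarith
  rcases le_total (3 * t) (5 * n) with c3 | c3
  · have a1 : a ^ 2 ≤ ((t + n) / 4) ^ 2 := pow_le_pow_left₀ ha (by linarith) 2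
    nlinarith [mul_nonneg (sub_nonneg.2 c1) (sub_nonneg.2 c3),
      mul_nonneg (sub_nonneg.2 d1) (sub_nonneg.2 d2), mul_nonneg (sub_nonneg.2 c1) (sub_nonneg.2 d1),
      mul_nonneg (sub_nonneg.2 c1) (sub_nonneg.2 d2), mul_nonneg (sub_nonneg.2 c3) (sub_nonneg.2 d1),
      mul_nonneg (sub_nonneg.2 c3) (sub_nonneg.2 d2)]
  · have a1 : a ^ 2 ≤ ((t + 3 * n) / 7) ^ 2 := pow_le_pow_left₀ ha (by linarith) 2
    nlinarith [mul_nonneg (sub_nonneg.2 c2)
      (show 0 ≤ 4 * (D + t + 6 * n) - 49 * (D - t) by linarith)]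

theorem knap {X : Finset Sub} {a t : Sub → ℝ} (hD : 0 < D) (hn : 0 ≤ n)
    (h : ∀ x ∈ X, 0 ≤ a x ∧ 2 * a x ≤ t x ∧ 4 * a x ≤ t x + n ∧ 7 * a x ≤ t x + 3 * n ∧ a x ≤ n)
    (hs : ∑ x ∈ X, t x ≤ D) (d2 : D ≤ 2 * n) :
    ∑ x ∈ X, a x ^ 2 ≤ min (D / 2) (min ((D + n) / 4) ((D + 3 * n) / 7)) ^ 2 := by
  have t0 : ∀ x ∈ X, 0 ≤ t x := fun x hx => by linarith [(h x hx).1, (h x hx).2.1]
  have t1 : ∀ x ∈ X, t x ≤ D := fun x hx => (single_le_sum t0 hx).trans hs
  have a1 : ∀ x ∈ X, a x ^ 2 ≤ t x ^ 2 / 4 := fun x hx =>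
    (pow_le_pow_left₀ (h x hx).1 (show a x ≤ t x / 2 by linarith [(h x hx).2.1]) 2).trans_eq
      (by ring)
  have key : ∀ c : ℝ, 0 ≤ c → (∀ x ∈ X, a x ^ 2 ≤ c * t x) → ∑ x ∈ X, a x ^ 2 ≤ c * D :=
    fun c hc h => (sum_le_sum h).trans (by
      rw [← mul_sum]; exact mul_le_mul_of_nonneg_left hs hc)
  rcases le_total (3 * D) (5 * n) with d1 | d1
  · rw [min_eq_left (show (D + n) / 4 ≤ (D + 3 * n) / 7 by linarith)]
    refine (key (min (D / 2) ((D + n) / 4) ^ 2 / D) (by positivity) fun x hx => ?_).trans_eq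
      (div_mul_cancel₀ _ hD.ne')
    rw [div_mul_eq_mul_div, le_div_iff₀ hD, mul_comm _ (t x)]
    exact conc (h x hx).1 (h x hx).2.1 (h x hx).2.2.1 (t1 x hx) hn
  rw [min_eq_right (show (D + 3 * n) / 7 ≤ (D + n) / 4 by linarith), min_eq_right (by linarith)]
  by_cases hb : ∃ x ∈ X, n ≤ t x
  · obtain ⟨x, hx, c1⟩ := hb
    rw [← add_sum_erase _ _ hx] at hs ⊢
    refine le_trans (add_le_add le_rfl ?_)
      (one_big (h x hx).1 (h x hx).2.2.1 (h x hx).2.2.2.1 c1 (t1 x hx) d1 d2)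
    have u0 : ∀ y ∈ X.erase x, 0 ≤ t y := fun y hy => t0 y (mem_of_mem_erase hy)
    refine (sum_le_sum fun y hy => a1 y (mem_of_mem_erase hy)).trans ?_
    rw [← sum_div]
    exact div_le_div_of_nonneg_right ((sum_sq_le_sq_sum_of_nonneg u0).trans
      (pow_le_pow_left₀ (sum_nonneg u0) (by linarith) 2)) (by norm_num)
  · push Not at hb
    refine (key (n / 4) (by positivity) fun x hx => (a1 x hx).trans ?_).trans ?_
    · nlinarith [mul_nonneg (t0 x hx) (sub_nonneg.2 (hb x hx).le)]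
    · nlinarith [mul_nonneg (show 0 ≤ 9 * n - 4 * D by linarith) (show 0 ≤ 4 * n - D by linarith)]

end num

end Pool.Agent.P.MP_390d44_co.Dc
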