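import Pool.Agent.P.MP_390d44_co.Dc.Star
import Pool.Agent.P.MP_390d44_co.Dc.Up

/-! The top of the fibre when few lines are missing. -/

set_option autoImplicit false

namespace Pool.Agent.P.MP_390d44_co.Dc

open Finset Pool.Agent.P.MP_390d44_co Pool.Agent.P.MP_390d44_co.Fb

theorem outer {n l p D : ℕ} (hD : l + D = n.choose 2) (hn : D ≤ 2 * n) {x : ℝ} (hx : 1 ≤ x)
    (hx4 : x ^ 4 = D + 1) (h : R3 n l p) : (p : ℝ) ≤ (n.choose 3 : ℝ) - n * D +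
      min ((D : ℝ) / 2) (min ((D + n) / 4) ((D + 3 * n) / 7)) ^ 2 / 2 + 20 * x ^ 7 := by
  obtain ⟨X, hX, rfl, rfl, rfl⟩ := h
  have x0 : 0 < x := by linarith
  rcases Nat.eq_zero_or_pos D with rfl | hD0
  · have h1 := (Nat.cast_le (α := ℝ)).2 (p_CTH p_DEL X hX)
    have h2 := sq_nonneg (min ((0 : ℝ) / 2) (min ((0 + X.card) / 4) ((0 + 3 * X.card) / 7)))
    have h3 : 0 ≤ x ^ 7 := by positivity
    rw [Nat.cast_zero]
    linarith
  obtain ⟨a, t, b1, b2, h1⟩ := up hX hD hD0 hx (by linarith)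
  have k2 := knap (by exact_mod_cast hD0) (Nat.cast_nonneg _) b1 b2 (by exact_mod_cast hn)
  have h2 : x ^ 4 ≤ x ^ 7 := pow_le_pow_right₀ hx (by omega)
  have h3 : (D : ℝ) * x ^ 3 ≤ x ^ 4 * x ^ 3 :=
    mul_le_mul_of_nonneg_right (by linarith) (by positivity)
  have h4 : x ^ 4 * x ^ 3 = x ^ 7 := by ring
  linarith

theorem inner {n l p D : ℕ} (hD : l + D = n.choose 2) (h1 : D ≠ 1) (h3 : D ≠ 3)
    (hn : D ≤ 2 * n) {x : ℝ} (hx : 1 ≤ x) (hx4 : x ^ 4 = D + 1) (hl : 10 ^ 9 * l ^ 4 ≤ p ^ 3)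
    (hp : (p : ℝ) ≤ (n.choose 3 : ℝ) - n * D +
      min ((D : ℝ) / 2) (min ((D + n) / 4) ((D + 3 * n) / 7)) ^ 2 / 2 - 4000 * x ^ 7) :
    R3 n l p := by
  by_cases hF : (p : ℝ) + 2000 * (D + 1) ≤ FF n D
  · exact inn n l p D hD h1 h3 hl hF
  have x0 : 0 < x := by linarith
  have D0 : (0 : ℝ) ≤ D := Nat.cast_nonneg D
  have hF' : (n.choose 3 : ℝ) - n * D < p + 2000 * x ^ 4 := by
    have : 0 ≤ 2 * (D : ℝ) * Real.sqrt (2 * D) / 3 := by positivity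
    rw [FF, not_le] at hF
    rw [hx4]
    linarith
  obtain ⟨B, hB⟩ : ∃ B, B = min ((D : ℝ) / 2) (min ((D + n) / 4) ((D + 3 * n) / 7)) := ⟨_, rfl⟩
  have n0 : (0 : ℝ) ≤ n := Nat.cast_nonneg n
  have B1 : (D : ℝ) / 7 ≤ B := hB ▸ le_min (by linarith) (le_min (by linarith) (by linarith))
  have B3 : B ≤ D / 2 := hB ▸ min_le_left _ _
  have B4 : B ≤ (D + n) / 4 := hB ▸ (min_le_right _ _).trans (min_le_left _ _)
  have B5 : B ≤ (D + 3 * n) / 7 := hB ▸ (min_le_right _ _).trans (min_le_right _ _)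
  have B2 : B ≤ x ^ 4 / 2 := by linarith
  have B6 : B ^ 2 ≤ x ^ 8 / 4 := (pow_le_pow_left₀ (by linarith) B2 2).trans_eq (by ring)
  rw [← hB] at hp
  clear hB
  have p47 : x ^ 4 ≤ x ^ 7 := pow_le_pow_right₀ hx (by omega)
  have x3 : 1 ≤ x ^ 3 := one_le_pow₀ hx
  have x4 : 1 ≤ x ^ 4 := one_le_pow₀ hx
  have big : 16000 ≤ x := by
    refine le_of_mul_le_mul_right ?_ (pow_pos x0 7)
    have : x * x ^ 7 = x ^ 8 := by ring
    linarith
  have b4 : 16000 * x ^ 3 ≤ x ^ 4 :=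
    (mul_le_mul_of_nonneg_right big (by positivity)).trans_eq (by ring)
  obtain ⟨u, u1, u2⟩ : ∃ u : ℕ, 2 * x ^ 3 ≤ u ∧ (u : ℝ) ≤ 2 * x ^ 3 + 1 :=
    ⟨⌈2 * x ^ 3⌉₊, Nat.le_ceil _, (Nat.ceil_lt_add_one (by positivity)).le⟩
  have hu : 4000 * u + 200 ≤ D := by
    have : (4000 * u + 200 : ℝ) ≤ D := by linarith
    exact_mod_cast this
  obtain ⟨k, rfl⟩ : ∃ k, n = k + 100 * u := ⟨n - 100 * u, by omega⟩
  obtain ⟨A, E, hS, hE, hA⟩ := star k D h1 h3 (by omega)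
  have u0 : (0 : ℝ) ≤ u := Nat.cast_nonneg u
  have hAB : B - (50 * u + 6) ≤ A - 1 := by
    push_cast at B4 B5
    rcases hA with hA | hA | hA
    · have : (D : ℝ) ≤ 2 * A + 1 := by exact_mod_cast hA
      linarith
    · have : (D : ℝ) + k ≤ 4 * A + 4 := by exact_mod_cast hA
      linarith
    · have : (D : ℝ) + 3 * k ≤ 7 * A + 30 := by exact_mod_cast hA
      linarith
  have hE1 : B ^ 2 / 2 - 80 * x ^ 7 ≤ E := by
    have a1 : (A : ℝ) * (A - 1) / 2 ≤ E := by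
      rw [← Nat.cast_choose_two]; exact_mod_cast hE
    have a2 : (B - (50 * u + 6)) * (B - (50 * u + 6)) ≤ A * (A - 1) :=
      mul_le_mul (by linarith) hAB (by linarith) (Nat.cast_nonneg A)
    have a3 : (50 * u + 6) * B ≤ (160 * x ^ 3) * (x ^ 4 / 2) :=
      mul_le_mul (by linarith) B2 (by linarith) (by positivity)
    nlinarith [sq_nonneg (50 * (u : ℝ) + 6)]
  have hE2 : (E : ℝ) ≤ x ^ 8 + 20 * x ^ 7 := by
    obtain ⟨X, a1, a2, a3, a4⟩ := hS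
    obtain ⟨a, t, b1, b2, a5⟩ := up a1 (a2 ▸ a3) (by omega) hx (by linarith)
    have a6 : ((planes X).card : ℝ) + k * D = k.choose 3 + E := by exact_mod_cast a4
    have a7 : ∑ y ∈ X, a y ^ 2 ≤ x ^ 8 := by
      refine (sum_sq_le_sq_sum_of_nonneg fun y hy => (b1 y hy).1).trans
        ((pow_le_pow_left₀ (sum_nonneg fun y hy => (b1 y hy).1) (b := x ^ 4) ?_ 2).trans_eq
          (by ring))
      have := sum_le_sum (s := X) (f := a) (g := t) fun y hy => by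
        linarith [(b1 y hy).1, (b1 y hy).2.1]
      linarith
    have h3 : (D : ℝ) * x ^ 3 ≤ x ^ 4 * x ^ 3 :=
      mul_le_mul_of_nonneg_right (by linarith) (by positivity)
    have h4 : x ^ 4 * x ^ 3 = x ^ 7 := by ring
    have h5 : 0 ≤ x ^ 8 := by positivity
    rw [a2] at a5
    linarith
  obtain ⟨T, hT⟩ : ∃ T : ℤ, T = E - (p + (k + 100 * u : ℕ) * D - (k + 100 * u).choose 3) :=
    ⟨_, rfl⟩
  have hT' : (T : ℝ) = E - (p + (k + 100 * u : ℕ) * D - (k + 100 * u).choose 3) := by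
    rw [hT]; push_cast; ring
  have T1 : 36 ≤ T := by
    have : (36 : ℝ) ≤ T := by linarith
    exact_mod_cast this
  have T2 : T ≤ (u : ℤ) ^ 3 := by
    have a1 : (2 * x ^ 3) ^ 3 ≤ (u : ℝ) ^ 3 := pow_le_pow_left₀ (by positivity) u1 3
    have a2 : 16000 * x ^ 7 ≤ x ^ 8 :=
      (mul_le_mul_of_nonneg_right big (by positivity)).trans_eq (by ring)
    have a3 : x ^ 8 ≤ x ^ 9 := pow_le_pow_right₀ hx (by omega)
    have a4 : (2 * x ^ 3) ^ 3 = 8 * x ^ 9 := by ring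
    have : (T : ℝ) ≤ (u : ℝ) ^ 3 := by linarith
    exact_mod_cast this
  lift T to ℕ using by omega
  obtain ⟨X, a1, a2, a3, a4⟩ := p_REP p_GEN p_BLK u T (by exact_mod_cast T1) (by exact_mod_cast T2)
    k D E hS
  exact ⟨X, a1, a2, by omega, by omega⟩

end Pool.Agent.P.MP_390d44_co.Dc
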