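import Pool.Agent.P.MP_390d44_co.Fb.Main

/-! Stars of rich lines through one point. -/

set_option autoImplicit false

namespace Pool.Agent.P.MP_390d44_co.Dc

open Finset Pool.Agent.P.MP_390d44_co Pool.Agent.P.MP_390d44_co.Fb

/-- In every plane through `o` the points of `X` lie on two lines through `o`. -/
def Two (X : Finset Sub) (o : Sub) : Prop :=
  ∀ p, rk p = 3 → o ≤ p → ∃ g h, rk g = 2 ∧ rk h = 2 ∧ o ≤ g ∧ o ≤ h ∧
    ∀ c ∈ X, c ≤ p → c ≤ g ∨ c ≤ h

/-- The data of a star. -/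
structure IsStar (X : Finset Sub) (o : Sub) (n D A : ℕ) : Prop where
  pts : IsPts X
  mem : o ∈ X
  two : Two X o
  card : X.card = n
  lin : (lines X).card + D = n.choose 2
  rad : ((lines X).filter (o ≤ ·)).card + A + 1 ≤ n
  pla : n.choose 3 + A.choose 2 ≤ (planes X).card + n * D

variable {X : Finset Sub} {o g : Sub} {n D A : ℕ}

theorem ch2 (n : ℕ) : (n + 1).choose 2 = n + n.choose 2 := by
  rw [Nat.choose_succ_succ, Nat.choose_one_right]

theorem star_base : ∃ X o, IsStar X o 1 0 0 := by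
  obtain ⟨o, ho, -, -⟩ := generic (W := ⊤) (by rw [rk_top]; omega) ∅ (by simp)
  have hX : IsPts {o} := fun x hx => mem_singleton.1 hx ▸ ho
  have hl : lines {o} = ∅ := eq_empty_of_forall_notMem fun l hl => by
    obtain ⟨-, a, ha, b, hb, e, -⟩ := (mem_lines hX).1 hl
    exact e ((mem_singleton.1 ha).trans (mem_singleton.1 hb).symm)
  refine ⟨{o}, o, hX, mem_singleton_self _, fun p hp _ => ?_, card_singleton _, by simp [hl],
    by simp [hl], Nat.zero_le _⟩
  obtain ⟨x, x1, -, x2⟩ := generic (W := p) (by omega) {o} fun U hU =>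
    not_le_of_rk (by rw [mem_singleton.1 hU]; omega)
  have hne : o ≠ x := fun e => x2 o (mem_singleton_self _) e.ge
  exact ⟨o ⊔ x, o ⊔ x, rk_pp ho x1 hne, rk_pp ho x1 hne, le_sup_left, le_sup_left,
    fun c hc _ => Or.inl (mem_singleton.1 hc ▸ le_sup_left)⟩

theorem star_gen (h : IsStar X o n D A) : ∃ X g, IsStar X o (n + 1) D A ∧ g ∈ lines X ∧ o ≤ g ∧
    (pts X g).card = 2 := by
  obtain ⟨hX, ho, h2, rfl, hl, hr, hp⟩ := h
  obtain ⟨x, -, hx, h⟩ := gen3 (c := ⊤) hX (by rw [rk_top]; omega)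
  have hn : ∀ p ∈ planes X, ¬ x ≤ p := fun p hp e =>
    not_le_of_rk (by rw [rk_top, rk_plane hp]; omega) (h p hp e)
  have h1 := card_lines_ins hX hx
  have h3 := card_planes_ins hX hx
  rw [filter_false_of_mem hn, sum_empty, add_zero] at h3
  have h4 : (X.card + 1).choose 3 = X.card.choose 2 + X.card.choose 3 := Nat.choose_succ_succ _ _
  have hxo := rk_pp hx.pt (hX o ho) (hx.ne ho)
  refine ⟨insert x X, x ⊔ o, ⟨hX.ins hx.pt, mem_insert_of_mem ho, fun p hp hop => ?_,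
    card_insert_of_notMem hx.nm, by rw [ch2]; omega, ?_, by rw [h3, h4, add_mul]; omega⟩,
    sup_mem_lines (hX.ins hx.pt) (mem_insert_self _ _) (mem_insert_of_mem ho) (hx.ne ho),
    le_sup_right, by rw [pts_new hX hx ho, card_pair (hx.ne ho)]⟩
  · by_cases e : x ≤ p
    · by_cases e' : ∃ a ∈ X, a ≤ p ∧ a ≠ o
      · obtain ⟨a, ha, a1, a2⟩ := e'
        refine ⟨a ⊔ o, x ⊔ o, rk_pp (hX a ha) (hX o ho) a2, hxo, le_sup_right, le_sup_right,
          fun c hc c1 => ?_⟩
        rcases mem_insert.1 hc with rfl | hc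
        · exact Or.inr le_sup_left
        · exact Or.inl (by_contra fun c2 => hn p ((mem_planes hX).2
            ⟨hp, c, hc, _, sup_mem_lines hX ha ho a2, c2, c1, sup_le a1 hop⟩) e)
      · refine ⟨x ⊔ o, x ⊔ o, hxo, hxo, le_sup_right, le_sup_right, fun c hc c1 => Or.inl ?_⟩
        rcases mem_insert.1 hc with rfl | hc
        · exact le_sup_left
        · have : c = o := by_contra fun c2 => e' ⟨c, hc, c1, c2⟩
          exact this ▸ le_sup_right
    · obtain ⟨g, g', a1, a2, a3, a4, a5⟩ := h2 p hp hop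
      exact ⟨g, g', a1, a2, a3, a4, fun c hc c1 => a5 c (ins_of_not_le e c hc c1) c1⟩
  · have : (lines (insert x X)).filter (o ≤ ·) ⊆ insert (x ⊔ o) ((lines X).filter (o ≤ ·)) := by
      intro l hl'
      obtain ⟨l1, l2⟩ := mem_filter.1 hl'
      by_cases e : x ≤ l
      · exact mem_insert.2 (Or.inl (line_eq (rk_line l1) hx.pt (hX o ho) (hx.ne ho) e l2).symm)
      · exact mem_insert_of_mem
          (mem_filter.2 ⟨line_restrict hX (hX.ins hx.pt) l1 (ins_of_not_le e), l2⟩)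
    have := (card_le_card this).trans (card_insert_le _ _)
    omega

theorem star_on (h : IsStar X o n D A) (hg : g ∈ lines X) (hog : o ≤ g) :
    ∃ X', IsStar X' o (n + 1) (D + (pts X g).card) (A + 1) ∧ g ∈ lines X' ∧
      (pts X' g).card = (pts X g).card + 1 := by
  obtain ⟨hX, ho, h2, rfl, hl, hr, hp⟩ := h
  have rg := rk_line hg
  obtain ⟨y, y1, y2, hy⟩ := generic (W := g) (by omega)
    (X ∪ (lines X).erase g ∪ (planes X).filter fun p => ¬ g ≤ p) fun U hU => by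
      simp only [mem_union, mem_filter, mem_erase] at hU
      rcases hU with (hU | hU) | hU
      · exact not_le_of_rk (by rw [hX U hU]; omega)
      · exact fun e => hU.1 (eq_of_rk e (by rw [rk_line hU.2, rg])).symm
      · exact hU.2
  have yX : y ∉ X := fun e => hy y (by simp [e]) le_rfl
  have yl : ∀ l ∈ lines X, y ≤ l → l = g := fun l hl e =>
    by_contra fun e' => hy l (by simp [hl, e']) e
  have yp : ∀ p ∈ planes X, y ≤ p → g ≤ p := fun p hp e =>
    by_contra fun e' => hy p (by simp [hp, e']) e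
  have yo : y ≠ o := fun e => yX (e ▸ ho)
  have hX' := hX.ins y1
  obtain ⟨z, hz, z1, z2⟩ := exists_ne hX hg o
  have h1 := p_ONL X y g hX y1 yX hg y2 yl
  have hm := two_le_pts hX hg
  have hzg : ∀ g', rk g' = 2 → o ≤ g' → z ≤ g' → g = g' := fun g' r a b =>
    lines_eq rg r (hX o ho) (hX z hz) z2.symm hog z1 a b
  set Sk := (lines X).filter fun l => ∀ q ∈ X, q ≤ g → ¬ q ≤ l with hSk
  have hs : ∀ l ∈ Sk, ¬ y ≤ l ∧ y ⊔ l ∉ planes X := fun l hl' => by
    obtain ⟨l1, l2⟩ := mem_filter.1 hl'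
    refine ⟨fun e => l2 o ho hog (yl l l1 e ▸ hog), fun e => ?_⟩
    have gp := yp _ e le_sup_left
    obtain ⟨g₁, g₂, a1, a2, a3, a4, a5⟩ := h2 _ (rk_plane e) (hog.trans gp)
    have key : ∀ g₁ g₂ : Sub, g = g₁ → o ≤ g₂ → (∀ c ∈ X, c ≤ y ⊔ l → c ≤ g₁ ∨ c ≤ g₂) →
        rk g₂ = 2 → False := fun g₁ g₂ e1 e2 e3 e4 => by
      have : l ≤ g₂ := line_le_of_pts l1 fun c hc c1 =>
        (e3 c hc (c1.trans le_sup_right)).resolve_left fun c2 => l2 c hc (e1 ▸ c2) c1
      exact l2 o ho hog (eq_of_rk this (by rw [e4, rk_line l1]) ▸ e2)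
    rcases a5 z hz (z1.trans gp) with e' | e'
    · exact key g₁ g₂ (hzg _ a1 a3 e') a4 a5 a2
    · exact key g₂ g₁ (hzg _ a2 a4 e') a3 (fun c hc c1 => (a5 c hc c1).symm) a1
  have h3 : (planes X).card + Sk.card ≤ (planes (insert y X)).card := by
    rw [← card_image_of_injOn (s := Sk) (f := (y ⊔ ·)), ← card_union_of_disjoint]
    · refine card_le_card (union_subset (planes_mono (subset_insert _ _)) fun p hp' => ?_)
      obtain ⟨l, hl', rfl⟩ := mem_image.1 hp'
      exact sup_mem_planes hX' (mem_insert_self _ _)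
        (lines_mono (subset_insert _ _) (mem_filter.1 hl').1) (hs l hl').1
    · exact disjoint_left.2 fun p p1 p2 => by
        obtain ⟨l, hl', rfl⟩ := mem_image.1 p2
        exact (hs l hl').2 p1
    · intro l hl' l' hl'' e
      have e : y ⊔ l = y ⊔ l' := e
      have l1 := (mem_filter.1 hl').1
      have l2 := (mem_filter.1 hl'').1
      refine (eq_of_rk (line_le_of_pts l2 fun a ha a1 => by_contra fun a2 => (hs l hl').2 ?_)
        (by rw [rk_line l1, rk_line l2])).symm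
      exact (mem_planes hX).2 ⟨rk_pl y1 (rk_line l1) (hs l hl').1, a, ha, l, l1, a2,
        e ▸ a1.trans le_sup_right, le_sup_right⟩
  have h4 : (lines X).card ≤ Sk.card + ((lines X).filter (o ≤ ·)).card +
      ((pts X g).card - 1) * X.card := by
    have : lines X ⊆ Sk ∪ (lines X).filter (o ≤ ·) ∪
        (((pts X g).erase o) ×ˢ X).image fun q => q.1 ⊔ q.2 := fun l hl' => by
      simp only [mem_union]
      by_cases e : l ∈ Sk
      · exact Or.inl (Or.inl e)
      by_cases e' : o ≤ l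
      · exact Or.inl (Or.inr (mem_filter.2 ⟨hl', e'⟩))
      have : ∃ q ∈ X, q ≤ g ∧ q ≤ l := by
        by_contra hc
        exact e (mem_filter.2 ⟨hl', fun q hq q1 q2 => hc ⟨q, hq, q1, q2⟩⟩)
      obtain ⟨q, hq, q1, q2⟩ := this
      obtain ⟨w, hw, w1, w2⟩ := exists_ne hX hl' q
      exact Or.inr (mem_image.2 ⟨(q, w), mem_product.2 ⟨mem_erase.2
        ⟨fun e => e' (e ▸ q2), mem_pts.2 ⟨hq, q1⟩⟩, hw⟩,
        line_eq (rk_line hl') (hX q hq) (hX w hw) w2.symm q2 w1⟩)
    refine (card_le_card this).trans ((card_union_le _ _).trans (add_le_add (card_union_le _ _)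
      (card_image_le.trans ?_)))
    rw [card_product, card_erase_of_mem (mem_pts.2 ⟨ho, hog⟩)]
  have h5 : (X.card + 1).choose 3 = X.card.choose 2 + X.card.choose 3 := Nat.choose_succ_succ _ _
  refine ⟨insert y X, ⟨hX', mem_insert_of_mem ho, fun p hp hop => ?_, card_insert_of_notMem yX,
    by rw [ch2]; omega, ?_, ?_⟩, lines_mono (subset_insert _ _) hg, by
      rw [pts_ins_of_le y2, card_insert_of_notMem fun e => yX (mem_pts.1 e).1]⟩
  · obtain ⟨g₁, g₂, a1, a2, a3, a4, a5⟩ := h2 p hp hop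
    refine ⟨g₁, g₂, a1, a2, a3, a4, fun c hc c1 => ?_⟩
    rcases mem_insert.1 hc with rfl | hc
    · exact (a5 z hz (z1.trans (line_le rg y1 (hX o ho) yo y2 hog c1 hop))).imp
        (fun e => hzg _ a1 a3 e ▸ y2) fun e => hzg _ a2 a4 e ▸ y2
    · exact a5 c hc c1
  · have : (lines (insert y X)).filter (o ≤ ·) ⊆ (lines X).filter (o ≤ ·) := by
      intro l hl'
      obtain ⟨l1, l2⟩ := mem_filter.1 hl'
      by_cases e : y ≤ l
      · exact lines_eq rg (rk_line l1) y1 (hX o ho) yo y2 hog e l2 ▸ mem_filter.2 ⟨hg, hog⟩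
      · exact mem_filter.2 ⟨line_restrict hX hX' l1 (ins_of_not_le e), l2⟩
    have := card_le_card this
    omega
  · obtain ⟨m, hm'⟩ : ∃ m, (pts X g).card = m + 1 := ⟨(pts X g).card - 1, by omega⟩
    rw [hm', Nat.add_sub_cancel] at h4
    rw [h5, ch2, hm']
    have : (X.card + 1) * (D + (m + 1)) = X.card * D + D + m * X.card + X.card + m + 1 := by ring
    omega

theorem star_all (a b c : ℕ) :
    ∃ X o, IsStar X o (1 + a + 2 * b + 3 * c) (2 * b + 5 * c) (b + 2 * c) := by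
  induction c with
  | succ c ih =>
    obtain ⟨X, o, h⟩ := ih
    obtain ⟨X, g, h, hg, hog, e⟩ := star_gen h
    obtain ⟨X', h, hg', e'⟩ := star_on h hg hog
    obtain ⟨X'', h, -⟩ := star_on h hg' hog
    rw [e', e] at h
    exact ⟨X'', o, by convert h using 1 <;> omega⟩
  | zero =>
    induction b with
    | succ b ih =>
      obtain ⟨X, o, h⟩ := ih
      obtain ⟨X, g, h, hg, hog, e⟩ := star_gen h
      obtain ⟨X', h, -⟩ := star_on h hg hog
      rw [e] at h
      exact ⟨X', o, by convert h using 1 <;> omega⟩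
    | zero =>
      induction a with
      | succ a ih =>
        obtain ⟨X, o, h⟩ := ih
        obtain ⟨X, g, h, -⟩ := star_gen h
        exact ⟨X, o, by convert h using 1; omega⟩
      | zero => exact star_base

theorem star_five (a b c d : ℕ) : ∃ X o,
    IsStar X o (1 + a + 2 * b + 3 * c + 4 * d) (2 * b + 5 * c + 9 * d) (b + 2 * c + 3 * d) := by
  induction d with
  | zero => exact star_all a b c
  | succ d ih =>
    obtain ⟨X, o, h⟩ := ih
    obtain ⟨X, g, h, hg, hog, e⟩ := star_gen h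
    obtain ⟨X', h, hg', e'⟩ := star_on h hg hog
    obtain ⟨X'', h, hg'', e''⟩ := star_on h hg' hog
    obtain ⟨X''', h, -⟩ := star_on h hg'' hog
    rw [e'', e', e] at h
    exact ⟨X''', o, by convert h using 1 <;> omega⟩

/-- A star with prescribed `n` and `D`. -/
theorem star (n D : ℕ) (h1 : D ≠ 1) (h3 : D ≠ 3) (h : 4 * D + 90 ≤ 9 * n) :
    ∃ (A : ℕ) (E : ℤ), St3 n D E ∧ (A.choose 2 : ℤ) ≤ E ∧
      (D ≤ 2 * A + 1 ∨ D + n ≤ 4 * A + 4 ∨ D + 3 * n ≤ 7 * A + 30) := by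
  obtain ⟨a, b, c, d, e1, e2, e3⟩ : ∃ a b c d, n = 1 + a + 2 * b + 3 * c + 4 * d ∧
      D = 2 * b + 5 * c + 9 * d ∧
        ((d = 0 ∧ (c ≤ 1 ∨ 2 * c + n ≤ D + 4)) ∨ (b = 0 ∧ a ≤ 9)) := by
    by_cases hD : D + 1 ≤ n
    · exact ⟨n - 1 - 2 * ((D - 5 * (D % 2)) / 2) - 3 * (D % 2), (D - 5 * (D % 2)) / 2, D % 2, 0,
        by omega, by omega, by omega⟩
    by_cases hD' : 3 * D + 20 ≤ 5 * n
    · obtain ⟨c, hc1, hc2, hc3⟩ : ∃ c, D + 1 ≤ 2 * c + n ∧ 2 * c + n ≤ D + 4 ∧ c % 2 = D % 2 := by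
        by_cases e : (D + 2 - n) / 2 % 2 = D % 2
        · exact ⟨(D + 2 - n) / 2, by omega, by omega, e⟩
        · exact ⟨(D + 2 - n) / 2 + 1, by omega, by omega, by omega⟩
      exact ⟨n - 1 - 2 * ((D - 5 * c) / 2) - 3 * c, (D - 5 * c) / 2, c, 0, by omega, by omega,
        Or.inl ⟨rfl, Or.inr hc2⟩⟩
    · obtain ⟨a, a1, a2, a3⟩ : ∃ a, 3 ≤ a ∧ a ≤ 9 ∧ a % 7 = (n + 5 * D + 6) % 7 :=
        ⟨3 + (n + 5 * D + 3) % 7, by omega, by omega, by omega⟩
      exact ⟨a, 0, (9 * n - 9 - 4 * D - 9 * a) / 7, (3 * D + 5 * a + 5 - 5 * n) / 7, by omega,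
        by omega, Or.inr ⟨rfl, a2⟩⟩
  obtain ⟨X, o, hs⟩ := star_five a b c d
  rw [← e1, ← e2] at hs
  refine ⟨b + 2 * c + 3 * d, (planes X).card + n * D - n.choose 3,
    ⟨X, hs.pts, hs.card, hs.lin, by ring⟩, ?_, by omega⟩
  have := hs.pla
  zify at this
  linarith

end Pool.Agent.P.MP_390d44_co.Dc
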