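import Pool.Agent.P.MP_390d44_co.Fb.Main

/-! Planes are counted by triangles of first pairs on lines. -/

set_option autoImplicit false

namespace Pool.Agent.P.MP_390d44_co.Dc

open Finset Pool.Agent.P.MP_390d44_co Pool.Agent.P.MP_390d44_co.Fb
open scoped Classical

theorem tri {α : Type} (X : Finset α) (G : α → α → Prop) (hs : ∀ a b, G a b → G b a)
    (hi : ∀ a, ¬ G a a) :
    (((X ×ˢ X ×ˢ X).filter fun t => G t.1 t.2.1 ∧ G t.1 t.2.2 ∧ G t.2.1 t.2.2).card : ℝ) ≤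
      (X.card : ℝ) ^ 3 - 3 * X.card * ∑ a ∈ X, ((X.filter fun b => ¬ G a b).card : ℝ) +
        3 * ∑ a ∈ X, ((X.filter fun b => ¬ G a b).card : ℝ) ^ 2 - X.card := by
  obtain ⟨w, hw⟩ : ∃ w : α → α → ℝ, w = fun a b => if ¬ G a b then 1 else 0 := ⟨_, rfl⟩
  obtain ⟨δ, hδ⟩ : ∃ δ : α → α → ℝ, δ = fun a b => if a = b then 1 else 0 := ⟨_, rfl⟩
  have ws : ∀ a b, w a b = w b a := fun a b => by
    simp only [hw, show G a b ↔ G b a from ⟨hs a b, hs b a⟩]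
  have he : ∀ a, ((X.filter fun b => ¬ G a b).card : ℝ) = ∑ b ∈ X, w a b := fun a => by
    rw [card_filter, hw]; push_cast; rfl
  have h1 : ∑ a ∈ X, ∑ b ∈ X, ∑ c ∈ X, w a b = X.card * ∑ a ∈ X, ∑ b ∈ X, w a b := by
    simp only [sum_const, nsmul_eq_mul, mul_sum]
  have h2 : ∑ a ∈ X, ∑ b ∈ X, ∑ c ∈ X, w a c = X.card * ∑ a ∈ X, ∑ b ∈ X, w a b := by
    simp only [sum_const, nsmul_eq_mul, mul_sum]
  have h3 : ∑ a ∈ X, ∑ b ∈ X, ∑ c ∈ X, w b c = X.card * ∑ a ∈ X, ∑ b ∈ X, w a b := by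
    simp only [sum_const, nsmul_eq_mul]
  have h4 : ∑ a ∈ X, ∑ b ∈ X, ∑ c ∈ X, w a b * w a c = ∑ a ∈ X, (∑ b ∈ X, w a b) ^ 2 := by
    simp only [sq, sum_mul_sum]
  have h5 : ∑ a ∈ X, ∑ b ∈ X, ∑ c ∈ X, w a b * w b c = ∑ a ∈ X, (∑ b ∈ X, w a b) ^ 2 := by
    rw [sum_comm, ← h4]
    simp only [ws]
  have h6 : ∑ a ∈ X, ∑ b ∈ X, ∑ c ∈ X, w a c * w b c = ∑ a ∈ X, (∑ b ∈ X, w a b) ^ 2 := by
    rw [← h5]
    refine sum_congr rfl fun a _ => ?_
    rw [sum_comm]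
    exact sum_congr rfl fun b _ => sum_congr rfl fun c _ => by rw [ws c b]
  have h7 : ∑ a ∈ X, ∑ b ∈ X, ∑ c ∈ X, δ a b * δ a c = X.card := by
    rw [card_eq_sum_ones]
    push_cast
    refine sum_congr rfl fun a ha => ?_
    rw [← sum_mul_sum]
    simp [hδ, ha]
  have h8 : ∑ a ∈ X, ∑ b ∈ X, ∑ c ∈ X, (1 : ℝ) = (X.card : ℝ) ^ 3 := by
    simp only [sum_const, nsmul_eq_mul]; ring
  simp only [he]
  rw [card_filter]
  push_cast
  rw [sum_product]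
  simp only [sum_product]
  have h9 : ∑ a ∈ X, ∑ b ∈ X, ∑ c ∈ X, (if G a b ∧ G a c ∧ G b c then (1 : ℝ) else 0) ≤
      ∑ a ∈ X, ∑ b ∈ X, ∑ c ∈ X, (1 - w a b - w a c - w b c + w a b * w a c + w a b * w b c +
        w a c * w b c - δ a b * δ a c) :=
    sum_le_sum fun a _ => sum_le_sum fun b _ => sum_le_sum fun c _ => by
      by_cases e : a = b ∧ a = c
      · obtain ⟨rfl, rfl⟩ := e
        simp [hw, hδ, hi]
      · have : δ a b * δ a c = 0 := by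
          simp only [hδ]
          split_ifs with e1 e2
          · exact absurd ⟨e1, e2⟩ e
          all_goals simp
        rw [this]
        by_cases e1 : G a b <;> by_cases e2 : G a c <;> by_cases e3 : G b c <;>
          simp [hw, e1, e2, e3]
  refine h9.trans_eq ?_
  simp only [sum_add_distrib, sum_sub_distrib]
  rw [h1, h2, h3, h4, h5, h6, h7, h8]
  ring

/-- `a`, `b` are the two first points of their line. -/
def Gd (X : Finset Sub) (f : Sub → ℕ) (a b : Sub) : Prop :=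
  a ≠ b ∧ ∀ c ∈ X, c ≤ a ⊔ b → c ≠ a → c ≠ b → f a < f c ∧ f b < f c

variable {X : Finset Sub} {f : Sub → ℕ} {a b x : Sub}

theorem Gd.symm (h : Gd X f a b) : Gd X f b a :=
  ⟨h.1.symm, fun c hc c1 c2 c3 => (h.2 c hc (sup_comm b a ▸ c1) c3 c2).symm⟩

theorem gd_pairs (hX : IsPts X) :
    ((X ×ˢ X).filter fun q => Gd X f q.1 q.2).card ≤ 2 * (lines X).card := by
  refine card_le_mul_card_image_of_maps_to (f := fun q : Sub × Sub => q.1 ⊔ q.2)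
    (fun q hq => ?_) 2 fun l _ => ?_
  · obtain ⟨h1, h2⟩ := mem_filter.1 hq
    exact sup_mem_lines hX (mem_product.1 h1).1 (mem_product.1 h1).2 h2.1
  rcases (filter (fun q : Sub × Sub => q.1 ⊔ q.2 = l)
    ((X ×ˢ X).filter fun q => Gd X f q.1 q.2)).eq_empty_or_nonempty with e | ⟨⟨a, b⟩, hab⟩
  · rw [e]; simp
  simp only [mem_filter, mem_product] at hab
  obtain ⟨⟨⟨ha, hb⟩, g⟩, e⟩ := hab
  have key : ∀ a' b', a' ∈ X → Gd X f a' b' → a' ⊔ b' = l → a' = a ∨ a' = b :=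
    fun a' b' ha' g' e' => by
      by_contra hc
      obtain ⟨c1, c2⟩ := not_or.1 hc
      obtain ⟨d1, d2⟩ := g.2 a' ha' (e ▸ e' ▸ le_sup_left) c1 c2
      by_cases e1 : a = b'
      · have := (g'.2 b hb (e' ▸ e ▸ le_sup_right) (Ne.symm c2) (e1 ▸ g.1.symm)).1
        omega
      · have := (g'.2 a ha (e' ▸ e ▸ le_sup_left) (Ne.symm c1) e1).1
        omega
  refine (card_le_card (t := {(a, b), (b, a)}) ?_).trans card_le_two
  rintro ⟨a', b'⟩ h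
  simp only [mem_filter, mem_product] at h
  obtain ⟨⟨⟨ha', hb'⟩, g'⟩, e'⟩ := h
  have k1 := key a' b' ha' g' e'
  have k2 := key b' a' hb' g'.symm (sup_comm a' b' ▸ e')
  have := g'.1
  rcases k1 with rfl | rfl <;> rcases k2 with rfl | rfl <;> simp_all

theorem gd_planes (hX : IsPts X) (hf : Set.InjOn f X) :
    6 * (planes X).card ≤ ((X ×ˢ X ×ˢ X).filter fun t =>
      Gd X f t.1 t.2.1 ∧ Gd X f t.1 t.2.2 ∧ Gd X f t.2.1 t.2.2).card := by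
  refine (mul_card_image_le_card_of_maps_to
    (s := ((X ×ˢ X ×ˢ X).filter fun t =>
      Gd X f t.1 t.2.1 ∧ Gd X f t.1 t.2.2 ∧ Gd X f t.2.1 t.2.2).filter
        fun t => t.1 ⊔ t.2.1 ⊔ t.2.2 ∈ planes X)
    (f := fun t : Sub × Sub × Sub => t.1 ⊔ t.2.1 ⊔ t.2.2) (fun t ht => (mem_filter.1 ht).2) 6
    fun p hp => ?_).trans (card_filter_le _ _)
  have lt : ∀ {u v}, u ∈ X → v ∈ X → v ≠ u → f u ≤ f v → f u < f v := fun hu hv e h =>
    lt_of_le_of_ne h fun e' => e (hf hu hv e').symm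
  have ex : ∀ l, rk l ≤ 2 → ∃ c ∈ X, c ≤ p ∧ ¬ c ≤ l ∧
      ∀ y ∈ X, y ≤ p → ¬ y ≤ l → y ≠ c → f c < f y := fun l hl => by
    obtain ⟨x, x1, x2, x3⟩ := exists_off hp hl
    obtain ⟨c, hc, hm⟩ := exists_min_image (X.filter fun y => y ≤ p ∧ ¬ y ≤ l) f
      ⟨x, mem_filter.2 ⟨x1, x2, x3⟩⟩
    obtain ⟨c1, c2, c3⟩ := mem_filter.1 hc
    exact ⟨c, c1, c2, c3, fun y y1 y2 y3 y4 => lt c1 y1 y4 (hm y (mem_filter.2 ⟨y1, y2, y3⟩))⟩
  obtain ⟨a, ha, ap, -, am⟩ := ex ⊥ (by rw [rk_bot]; omega)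
  have am : ∀ y ∈ X, y ≤ p → y ≠ a → f a < f y := fun y y1 y2 =>
    am y y1 y2 (not_le_of_rk (by rw [rk_bot, hX y y1]; omega))
  obtain ⟨b, hb, bp, ba, bm⟩ := ex a (by rw [hX a ha]; omega)
  have hab : a ≠ b := fun e => ba e.ge
  have bm : ∀ y ∈ X, y ≤ p → y ≠ a → y ≠ b → f b < f y := fun y y1 y2 y3 =>
    bm y y1 y2 fun e => y3 (pt_eq (hX y y1) (hX a ha) e)
  have rab := rk_pp (hX a ha) (hX b hb) hab
  obtain ⟨c, hc, cp, cl, cm⟩ := ex (a ⊔ b) rab.le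
  have hac : a ≠ c := fun e => cl (e ▸ le_sup_left)
  have hbc : b ≠ c := fun e => cl (e ▸ le_sup_right)
  have off : ∀ u ∈ X, u ≤ a ⊔ b → u ≠ c → ∀ y ∈ X, y ≤ u ⊔ c → y ≠ u → ¬ y ≤ a ⊔ b :=
    fun u hu u1 u2 y hy y1 y2 y3 => cl (line_le (rk_pp (hX u hu) (hX c hc) u2) (hX y hy)
      (hX u hu) y2 y1 le_sup_left y3 u1 |>.trans' le_sup_right)
  have g1 : Gd X f a b := ⟨hab, fun y hy y1 y2 y3 =>
    ⟨am y hy (y1.trans (sup_le ap bp)) y2, bm y hy (y1.trans (sup_le ap bp)) y2 y3⟩⟩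
  have g2 : Gd X f a c := ⟨hac, fun y hy y1 y2 y3 =>
    ⟨am y hy (y1.trans (sup_le ap cp)) y2,
      cm y hy (y1.trans (sup_le ap cp)) (off a ha le_sup_left hac y hy y1 y2) y3⟩⟩
  have g3 : Gd X f b c := ⟨hbc, fun y hy y1 y2 y3 =>
    have := off b hb le_sup_right hbc y hy y1 y2
    ⟨bm y hy (y1.trans (sup_le bp cp)) (fun e => this (e ▸ le_sup_left)) y2,
      cm y hy (y1.trans (sup_le bp cp)) this y3⟩⟩
  have e : a ⊔ b ⊔ c = p := by
    rw [sup_comm]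
    exact plane_eq (rk_plane hp) (hX c hc) rab cl cp (sup_le ap bp)
  have hc6 : ({(a, b, c), (a, c, b), (b, a, c), (b, c, a), (c, a, b), (c, b, a)} :
      Finset (Sub × Sub × Sub)).card = 6 := by
    repeat rw [card_insert_of_notMem]
    · rfl
    all_goals simp [hab, hac, hbc, hab.symm, hac.symm, hbc.symm]
  refine hc6.ge.trans (card_le_card fun t ht => ?_)
  have fin : ∀ u v w, u ∈ X → v ∈ X → w ∈ X → Gd X f u v → Gd X f u w → Gd X f v w →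
      u ⊔ v ⊔ w = p → (u, v, w) ∈ filter (fun t : Sub × Sub × Sub => t.1 ⊔ t.2.1 ⊔ t.2.2 = p)
        (((X ×ˢ X ×ˢ X).filter fun t =>
          Gd X f t.1 t.2.1 ∧ Gd X f t.1 t.2.2 ∧ Gd X f t.2.1 t.2.2).filter
            fun t => t.1 ⊔ t.2.1 ⊔ t.2.2 ∈ planes X) := fun u v w hu hv hw a1 a2 a3 a4 => by
    simp only [mem_filter, mem_product]
    exact ⟨⟨⟨⟨hu, hv, hw⟩, a1, a2, a3⟩, a4 ▸ hp⟩, a4⟩
  simp only [mem_insert, mem_singleton] at ht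
  rcases ht with rfl | rfl | rfl | rfl | rfl | rfl
  · exact fin _ _ _ ha hb hc g1 g2 g3 e
  · exact fin _ _ _ ha hc hb g2 g1 g3.symm (by rw [← e]; ac_rfl)
  · exact fin _ _ _ hb ha hc g1.symm g3 g2 (by rw [← e]; ac_rfl)
  · exact fin _ _ _ hb hc ha g3 g1.symm g2.symm (by rw [← e]; ac_rfl)
  · exact fin _ _ _ hc ha hb g2.symm g3.symm g1 (by rw [← e]; ac_rfl)
  · exact fin _ _ _ hc hb ha g3.symm g2.symm g1.symm (by rw [← e]; ac_rfl)

/-- Lines whose first point is `x`. -/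
noncomputable def own (X : Finset Sub) (f : Sub → ℕ) (x : Sub) : Finset Sub :=
  (lines X).filter fun l => x ≤ l ∧ ∀ c ∈ X, c ≤ l → f x ≤ f c

/-- Rich lines through `x` whose first point is not `x`. -/
noncomputable def frn (X : Finset Sub) (f : Sub → ℕ) (x : Sub) : Finset Sub :=
  (lines X).filter fun l => x ≤ l ∧ 3 ≤ (pts X l).card ∧ ∃ c ∈ X, c ≤ l ∧ f c < f x

theorem bad_card (hX : IsPts X) (hf : Set.InjOn f X) (hx : x ∈ X) :
    (X.filter fun y => ¬ Gd X f x y).card ≤ 1 + ∑ l ∈ own X f x, ((pts X l).card - 2) +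
      ∑ l ∈ frn X f x, ((pts X l).card - 1) := by
  have h1 : (X.filter fun y => ¬ Gd X f x y) ⊆ {x} ∪
      (own X f x).biUnion (fun l => ((pts X l).erase x).filter fun y => ¬ Gd X f x y) ∪
        (frn X f x).biUnion fun l => (pts X l).erase x := fun y hy => by
    obtain ⟨y1, y2⟩ := mem_filter.1 hy
    simp only [mem_union, mem_singleton, mem_biUnion]
    by_cases e : y = x
    · exact Or.inl (Or.inl e)
    have hl := sup_mem_lines hX hx y1 (Ne.symm e)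
    have hm : y ∈ (pts X (x ⊔ y)).erase x := mem_erase.2 ⟨e, mem_pts.2 ⟨y1, le_sup_right⟩⟩
    by_cases e' : ∀ c ∈ X, c ≤ x ⊔ y → f x ≤ f c
    · exact Or.inl (Or.inr ⟨_, mem_filter.2 ⟨hl, le_sup_left, e'⟩, mem_filter.2 ⟨hm, y2⟩⟩)
    push Not at e'
    refine Or.inr ⟨_, mem_filter.2 ⟨hl, le_sup_left, by_contra fun h3 => y2 ⟨Ne.symm e,
      fun c hc c1 c2 c3 => absurd ?_ h3⟩, e'⟩, hm⟩
    exact two_lt_card_iff.2 ⟨x, y, c, mem_pts.2 ⟨hx, le_sup_left⟩, mem_pts.2 ⟨y1, le_sup_right⟩,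
      mem_pts.2 ⟨hc, c1⟩, Ne.symm e, Ne.symm c2, Ne.symm c3⟩
  refine (card_le_card h1).trans ((card_union_le _ _).trans (add_le_add ((card_union_le _ _).trans
    (add_le_add (card_singleton _).le (card_biUnion_le.trans (sum_le_sum fun l hl => ?_))))
      (card_biUnion_le.trans (sum_le_sum fun l hl => ?_))))
  · obtain ⟨l1, l2, l3⟩ := mem_filter.1 hl
    obtain ⟨z, z1, z2, z3⟩ := exists_ne hX l1 x
    obtain ⟨y, hy, hm⟩ := exists_min_image ((pts X l).erase x) f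
      ⟨z, mem_erase.2 ⟨z3, mem_pts.2 ⟨z1, z2⟩⟩⟩
    obtain ⟨y1, y2⟩ := mem_erase.1 hy
    obtain ⟨y2, y3⟩ := mem_pts.1 y2
    have g : Gd X f x y := ⟨y1.symm, fun c hc c1 c2 c3 => by
      have c4 := c1.trans (sup_le l2 y3)
      exact ⟨lt_of_le_of_ne (l3 c hc c4) fun e => c2 (hf hx hc e).symm,
        lt_of_le_of_ne (hm c (mem_erase.2 ⟨c2, mem_pts.2 ⟨hc, c4⟩⟩)) fun e => c3 (hf y2 hc e).symm⟩⟩
    refine (card_le_card (t := ((pts X l).erase x).erase y) fun c hc => ?_).trans_eq ?_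
    · obtain ⟨c1, c2⟩ := mem_filter.1 hc
      exact mem_erase.2 ⟨fun e => c2 (e ▸ g), c1⟩
    rw [card_erase_of_mem hy, card_erase_of_mem (mem_pts.2 ⟨hx, l2⟩)]
    omega
  · rw [card_erase_of_mem (mem_pts.2 ⟨hx, (mem_filter.1 hl).2.1⟩)]

theorem thru_le (hX : IsPts X) (hx : x ∈ X) (S : Finset Sub) (hS : ∀ l ∈ S, l ∈ lines X ∧ x ≤ l) :
    ∑ l ∈ S, ((pts X l).card - 1) ≤ X.card := by
  rw [← sum_congr rfl fun l hl => card_erase_of_mem (mem_pts.2 ⟨hx, (hS l hl).2⟩), ← card_biUnion]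
  · exact card_le_card (biUnion_subset.2 fun l _ y hy => (mem_pts.1 (mem_of_mem_erase hy)).1)
  · intro l hl l' hl' e
    refine disjoint_left.2 fun y y1 y2 => e ?_
    obtain ⟨a1, a2⟩ := mem_erase.1 y1
    exact lines_eq (rk_line (hS l hl).1) (rk_line (hS l' hl').1) (hX y (mem_pts.1 a2).1) (hX x hx)
      a1 (mem_pts.1 a2).2 (hS l hl).2 (mem_pts.1 (mem_of_mem_erase y2)).2 (hS l' hl').2

end Pool.Agent.P.MP_390d44_co.Dc
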